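import Pool.Agent.W559.Wr.Stm
import Pool.Agent.W559.Et.FinC

/-!
Project Wr (helper214 for helper559): cyclic permutation groups.
-/

set_option autoImplicit false
set_option linter.unusedSectionVars false

open AlgebraicGeometry CategoryTheory TensorProduct

universe u

namespace Pool.Agent.W214.Wr

open Pool.Agent.H920R2 Pool.Agent.W559.Wr

section

variable {k K M : Type u} [Field k] [Field K] [Algebra k K] [Field M] [Algebra k M]
  {n : ℕ} (e : Fin n → K →ₐ[k] M) (hgen : ⨆ i, (e i).fieldRange = ⊤)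
  (π : Equiv.Perm (Fin n)) (τ : M ≃ₐ[k] M) (hτ : ∀ i x, τ (e i x) = e (π i) x)

include hτ in
lemma pow_e (r : ℕ) (i : Fin n) (x : K) : (τ ^ r) (e i x) = e ((π ^ r) i) x := by
  induction r generalizing i with
  | zero => rfl
  | succ r ih =>
    rw [pow_succ, pow_succ, AlgEquiv.mul_apply, hτ, ih]
    rfl

include hτ in
lemma zpow_e (r : ℤ) (i : Fin n) (x : K) : (τ ^ r) (e i x) = e ((π ^ r) i) x := by
  cases r with
  | ofNat r =>
    rw [Int.ofNat_eq_natCast, zpow_natCast, zpow_natCast]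
    exact pow_e e π τ hτ r i x
  | negSucc r =>
    rw [zpow_negSucc, zpow_negSucc]
    apply (τ ^ (r + 1)).injective
    rw [← AlgEquiv.mul_apply, mul_inv_cancel, pow_e e π τ hτ, ← Equiv.Perm.mul_apply,
      mul_inv_cancel]
    rfl

include hgen in
lemma eq_one_of (ρ : M ≃ₐ[k] M) (h : ∀ i x, ρ (e i x) = e i x) (x : M) : ρ x = x := by
  have h0 : (⊤ : IntermediateField k M) ≤ fixF ρ := by
    rw [← hgen, iSup_le_iff]
    rintro i _ ⟨x, rfl⟩
    exact h i x
  exact h0 (show x ∈ (⊤ : IntermediateField k M) from trivial)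

include hgen hτ in
lemma fixed_eq : IntermediateField.fixedField (permGrp e (Subgroup.zpowers π)) = fixF τ := by
  ext x
  rw [mem_fixF, IntermediateField.mem_fixedField_iff]
  constructor
  · intro h
    exact h τ ⟨π, Subgroup.mem_zpowers π, hτ⟩
  · rintro h σ ⟨g, ⟨r, rfl⟩, hg⟩
    have h1 : ((τ ^ r)⁻¹ * σ) x = x := by
      refine eq_one_of e hgen _ (fun i y => ?_) x
      rw [AlgEquiv.mul_apply, hg]
      apply (τ ^ r).injective
      rw [← AlgEquiv.mul_apply, mul_inv_cancel, zpow_e e π τ hτ]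
      rfl
    have h2 : (τ ^ r) x = x := by
      have h3 : τ ∈ MulAction.stabilizer (M ≃ₐ[k] M) x := h
      exact (MulAction.stabilizer (M ≃ₐ[k] M) x).zpow_mem h3 r
    calc σ x = (τ ^ r) (((τ ^ r)⁻¹ * σ) x) := by
          rw [← AlgEquiv.mul_apply, mul_inv_cancel_left]
      _ = x := by rw [h1, h2]

end

/-- Cyclic permutation groups. -/
theorem cyc (hlift : LiftStm.{u}) (hconv : ConvStm.{u}) (hmain : Pool.Agent.W559.Et.MainStm.{u})
    (hgrp : Pool.Agent.W559.Et.GrpStm.{u}) (hpow : Pool.Agent.W559.Et.PowStm.{u})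
    (hmodel : Pool.Agent.W559.Et.ModelStm.{u}) : CycStm.{u} := by
  classical
  intro k _ p m hp hpk hm hζ n π hπ K M _ _ _ _ e hdis hgen hSP
  obtain ⟨l, z, hz, hsmz, hgenz⟩ := hSP
  obtain ⟨τ, hτ⟩ := hlift k K M (Fin n) e hdis hgen π
  obtain ⟨g, hg, hgl⟩ := exists_mulMap (K := fun _ : Fin n => K) e
  have hginj : Function.Injective g := by
    intro a b hab
    apply hdis
    have h1 := hgl a
    have h2 := hgl b
    rw [hab, h2] at h1
    exact h1.symm
  have hfr : ∀ x : M, ∃ a b, g b ≠ 0 ∧ x = g a / g b := by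
    have htop : frF g = ⊤ := by
      rw [eq_top_iff, ← hgen, iSup_le_iff]
      rintro i _ ⟨x, rfl⟩
      have h1 := FrB.of (g : (⨂[k] _ : Fin n, K) →+* M)
        (PiTensorProduct.singleAlgHom (R := k) (A := fun _ : Fin n => K) i x)
      have h2 : (g : (⨂[k] _ : Fin n, K) →+* M)
        (PiTensorProduct.singleAlgHom (R := k) (A := fun _ : Fin n => K) i x) = e i x := hg i x
      rw [h2] at h1
      exact h1
    intro x
    have h1 : x ∈ frF g := by rw [htop]; trivial
    exact h1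
  have hτN : ∀ x, τ^[p * p * m] x = x := by
    intro x
    rw [← Pool.Agent.W559.Et.equiv_pow_iter]
    refine eq_one_of e hgen _ (fun i y => ?_) x
    rw [pow_e e π τ hτ, hπ]
    rfl
  obtain ⟨N, W, hW, I, hI, z', J, hM⟩ := Pool.Agent.W559.Et.perm_model hmain hgrp hpow hmodel hz
    hsmz hgenz e hg hginj hfr hp hpk hm hζ τ hτN π hτ
  rw [fixed_eq e hgen π τ hτ]
  exact hconv k M (fixF τ) (Fin N) W hW I z' J hM

end Pool.Agent.W214.Wr
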